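import Mathlib
import Pool.Agent.H13.RepGen

set_option autoImplicit false

/-!
# Invariant subspaces of complex representations of a finite group
-/

namespace Pool.Agent.H93.Hup

open Module CategoryTheory

section

variable {G X : Type} [Group G] [AddCommGroup X] [Module ℂ X]

/-- `U` is stable under the representation `ρ`. -/
def Inv (ρ : Representation ℂ G X) (U : Submodule ℂ X) : Prop :=
  ∀ g : G, ∀ v ∈ U, ρ g v ∈ U

/-- `U` is a minimal nonzero invariant subspace. -/
def MinInv (ρ : Representation ℂ G X) (U : Submodule ℂ X) : Prop :=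
  U ≠ ⊥ ∧ Inv ρ U ∧ ∀ U' : Submodule ℂ X, Inv ρ U' → U' ≤ U → U' ≠ ⊥ → U' = U

/-- `ρ` is irreducible. -/
def Irr (ρ : Representation ℂ G X) : Prop :=
  (∃ x : X, x ≠ 0) ∧ ∀ U : Submodule ℂ X, Inv ρ U → U ≠ ⊥ → U = ⊤

theorem exists_minInv [FiniteDimensional ℂ X] (ρ : Representation ℂ G X) (Y : Submodule ℂ X)
    (hY : Inv ρ Y) (hne : Y ≠ ⊥) : ∃ U : Submodule ℂ X, U ≤ Y ∧ MinInv ρ U := by
  let S : Set (Submodule ℂ X) := {U | U ≤ Y ∧ U ≠ ⊥ ∧ Inv ρ U}
  have hS : S.Nonempty := ⟨Y, le_refl Y, hne, hY⟩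
  have hwf : WellFounded ((· < ·) : Submodule ℂ X → Submodule ℂ X → Prop) := wellFounded_lt
  obtain ⟨U, hU, hmin⟩ := hwf.has_min S hS
  refine ⟨U, hU.1, hU.2.1, hU.2.2, ?_⟩
  intro U' hU' hle hne'
  by_contra hcon
  exact hmin U' ⟨hle.trans hU.1, hne', hU'⟩ (lt_of_le_of_ne hle hcon)

theorem exists_compl [Finite G] (ρ : Representation ℂ G X) (Y : Submodule ℂ X)
    (hY : Inv ρ Y) : ∃ C : Submodule ℂ X, Inv ρ C ∧ Y ⊓ C = ⊥ ∧ Y ⊔ C = ⊤ := by
  have : NeZero (Nat.card G : ℂ) := ⟨by exact_mod_cast Nat.card_pos.ne'⟩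
  let σ : Subrepresentation ρ := ⟨Y, fun g v hv => hY g v hv⟩
  obtain ⟨τ, hτ⟩ := exists_isCompl σ
  refine ⟨τ.toSubmodule, fun g v hv => τ.apply_mem_toSubmodule g hv, ?_, ?_⟩
  · have h1 : σ ⊓ τ = ⊥ := hτ.inf_eq_bot
    have h2 := congrArg Subrepresentation.toSubmodule h1
    exact h2
  · have h1 : σ ⊔ τ = ⊤ := hτ.sup_eq_top
    have h2 := congrArg Subrepresentation.toSubmodule h1
    rw [Subrepresentation.toSubmodule_sup] at h2
    exact h2

/-- An invariant subspace containing all minimal invariant subspaces is everything. -/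
theorem eq_top_of_minInv_le [Finite G] [FiniteDimensional ℂ X] (ρ : Representation ℂ G X)
    (D : Submodule ℂ X) (hD : Inv ρ D) (h : ∀ U, MinInv ρ U → U ≤ D) : D = ⊤ := by
  obtain ⟨C, hC, h1, h2⟩ := exists_compl ρ D hD
  by_cases hb : C = ⊥
  · rw [hb, sup_bot_eq] at h2
    exact h2
  · obtain ⟨U, hUC, hU⟩ := exists_minInv ρ C hC hb
    exfalso
    apply hU.1
    rw [eq_bot_iff, ← h1]
    exact le_inf (h U hU) hUC

/-- Schur's lemma. -/
theorem schur [FiniteDimensional ℂ X] (ρ : Representation ℂ G X) (hρ : Irr ρ) (T : X →ₗ[ℂ] X)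
    (hT : ∀ g x, T (ρ g x) = ρ g (T x)) : ∃ c : ℂ, ∀ x, T x = c • x := by
  obtain ⟨x0, hx0⟩ := hρ.1
  have : Nontrivial X := ⟨⟨x0, 0, hx0⟩⟩
  obtain ⟨c, hc⟩ := Module.End.exists_eigenvalue T
  refine ⟨c, ?_⟩
  have hinv : Inv ρ (Module.End.eigenspace T c) := by
    intro g v hv
    rw [Module.End.mem_eigenspace_iff] at hv ⊢
    rw [hT, hv, map_smul]
  have htop := hρ.2 _ hinv hc
  intro x
  have hx : x ∈ Module.End.eigenspace T c := by rw [htop]; trivial
  exact Module.End.mem_eigenspace_iff.mp hx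

/-- The representation on a minimal invariant subspace is irreducible, hence its dimension is
bounded by any bound for the dimensions of the simple objects. -/
theorem finrank_minInv_le [Finite G] [FiniteDimensional ℂ X] {b : ℕ}
    (hb : ∀ V : FDRep ℂ G, Simple V → finrank ℂ V ≤ b)
    (ρ : Representation ℂ G X) (U : Submodule ℂ X) (hU : MinInv ρ U) : finrank ℂ U ≤ b := by
  let σ : Subrepresentation ρ := ⟨U, fun g v hv => hU.2.1 g v hv⟩
  have hirr : σ.toRepresentation.IsIrreducible := by
    refine { exists_pair_ne := ⟨⊥, ⊤, ?_⟩, eq_bot_or_eq_top := ?_ }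
    · intro h
      have h2 := congrArg Subrepresentation.toSubmodule h
      have h3 : (⊥ : Submodule ℂ U) = ⊤ := h2
      apply hU.1
      rw [Submodule.eq_bot_iff]
      intro x hx
      have h4 : (⟨x, hx⟩ : U) ∈ (⊥ : Submodule ℂ U) := by rw [h3]; trivial
      rw [Submodule.mem_bot] at h4
      exact congrArg Subtype.val h4
    · intro τ
      by_cases hτ : τ.toSubmodule = ⊥
      · left
        apply Subrepresentation.toSubmodule_injective
        exact hτ
      · right
        apply Subrepresentation.toSubmodule_injective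
        have hmap : τ.toSubmodule.map U.subtype = U := by
          apply hU.2.2
          · rintro g v ⟨w, hw, rfl⟩
            exact ⟨σ.toRepresentation g w, τ.apply_mem_toSubmodule g hw, rfl⟩
          · rintro v ⟨w, _, rfl⟩
            exact w.2
          · intro h
            apply hτ
            rw [Submodule.eq_bot_iff]
            intro x hx
            have h1 : (x : X) ∈ τ.toSubmodule.map U.subtype := ⟨x, hx, rfl⟩
            rw [h, Submodule.mem_bot] at h1
            exact Subtype.ext h1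
        have htop : τ.toSubmodule = ⊤ := by
          rw [eq_top_iff]
          intro x _
          have h1 : (x : X) ∈ τ.toSubmodule.map U.subtype := by rw [hmap]; exact x.2
          obtain ⟨w, hw, hwx⟩ := h1
          have : w = x := Subtype.ext hwx
          rw [← this]
          exact hw
        exact htop
  exact hb (FDRep.of σ.toRepresentation)
    (Pool.Agent.H13.simple_of_irreducible σ.toRepresentation hirr)

end

end Pool.Agent.H93.Hup
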