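import Pool.Agent.H93.Hup.Ext

set_option autoImplicit false

/-!
# Functions on cosets with values in a representation of maximal dimension
-/

namespace Pool.Agent.H93.Hup

open Module CategoryTheory
open scoped BigOperators

section

variable {G W : Type} [Group G] [AddCommGroup W] [Module ℂ W]

/-- The representation on functions on the cosets. -/
def act (ρ : Representation ℂ G W) (K : Subgroup G) : Representation ℂ G (G ⧸ K → W) where
  toFun g :=
    { toFun := fun f x => ρ g (f (g⁻¹ • x))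
      map_add' := fun f f' => by funext x; exact map_add _ _ _
      map_smul' := fun c f => by funext x; exact map_smul _ _ _ }
  map_one' := by
    apply LinearMap.ext
    intro f
    funext x
    show ρ 1 (f ((1 : G)⁻¹ • x)) = f x
    rw [inv_one, one_smul, map_one]
    rfl
  map_mul' a b := by
    apply LinearMap.ext
    intro f
    funext x
    show ρ (a * b) (f ((a * b)⁻¹ • x)) = ρ a (ρ b (f (b⁻¹ • a⁻¹ • x)))
    rw [mul_inv_rev, mul_smul, map_mul]
    rfl

theorem act_apply (ρ : Representation ℂ G W) (K : Subgroup G) (g : G) (f : G ⧸ K → W)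
    (x : G ⧸ K) : act ρ K g f x = ρ g (f (g⁻¹ • x)) := rfl

/-- The restriction of a representation to a subgroup. -/
def resK (ρ : Representation ℂ G W) (K : Subgroup G) : Representation ℂ K W :=
  ρ.comp K.subtype

theorem resK_apply (ρ : Representation ℂ G W) (K : Subgroup G) (k : K) (w : W) :
    resK ρ K k w = ρ k w := rfl

theorem fix_base (K : Subgroup G) (k : G) (hk : k ∈ K) :
    k • ((1 : G) : G ⧸ K) = ((1 : G) : G ⧸ K) := by
  rw [MulAction.Quotient.smul_coe, smul_eq_mul, mul_one, QuotientGroup.eq, mul_one]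
  exact K.inv_mem hk

/-- Evaluation at the base point is bijective on minimal invariant subspaces. -/
theorem ev_bij [Finite G] [FiniteDimensional ℂ W] (K : Subgroup G) (ρ : Representation ℂ G W)
    (hρ : Irr (resK ρ K)) (hb : ∀ V : FDRep ℂ G, Simple V → finrank ℂ V ≤ finrank ℂ W)
    (U : Submodule ℂ (G ⧸ K → W)) (hU : MinInv (act ρ K) U) :
    Function.Bijective ((LinearMap.proj ((1 : G) : G ⧸ K)) ∘ₗ U.subtype : U →ₗ[ℂ] W) := by
  set ev : U →ₗ[ℂ] W := (LinearMap.proj ((1 : G) : G ⧸ K)) ∘ₗ U.subtype with hev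
  have hsurj : Function.Surjective ev := by
    rw [← LinearMap.range_eq_top]
    apply hρ.2
    · rintro k w ⟨u, rfl⟩
      refine ⟨⟨act ρ K k u, hU.2.1 k u u.2⟩, ?_⟩
      show ρ k ((u : G ⧸ K → W) ((k : G)⁻¹ • ((1 : G) : G ⧸ K))) =
        ρ k ((u : G ⧸ K → W) ((1 : G) : G ⧸ K))
      rw [fix_base K _ (K.inv_mem k.2)]
    · intro h
      apply hU.1
      rw [Submodule.eq_bot_iff]
      intro f hf
      funext x
      induction x using QuotientGroup.induction_on with
      | H g =>
        have h1 : ev ⟨act ρ K g⁻¹ f, hU.2.1 g⁻¹ f hf⟩ ∈ LinearMap.range ev := ⟨_, rfl⟩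
        rw [h, Submodule.mem_bot] at h1
        have h2 : ρ g⁻¹ (f ((g⁻¹)⁻¹ • ((1 : G) : G ⧸ K))) = 0 := h1
        rw [inv_inv, MulAction.Quotient.smul_coe, smul_eq_mul, mul_one] at h2
        have h3 : ρ g (ρ g⁻¹ (f (g : G ⧸ K))) = 0 := by rw [h2, map_zero]
        have h4 : ρ g (ρ g⁻¹ (f (g : G ⧸ K))) = f (g : G ⧸ K) := by
          rw [← Module.End.mul_apply, ← map_mul, mul_inv_cancel, map_one]
          rfl
        rw [h4] at h3
        exact h3
  have hle := finrank_minInv_le hb (act ρ K) U hU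
  have hge : finrank ℂ W ≤ finrank ℂ U := LinearMap.finrank_le_finrank_of_surjective hsurj
  exact ⟨(LinearMap.injective_iff_surjective_of_finrank_eq_finrank (le_antisymm hle hge)).mpr hsurj,
    hsurj⟩

/-- The number of fixed points is a class function. -/
theorem card_fix (K : Subgroup G) [Fintype (G ⧸ K)]
    [DecidableEq (G ⧸ K)] (h k0 : G) :
    (Finset.univ.filter (fun x : G ⧸ K => (h * k0 * h⁻¹)⁻¹ • x = x)).card =
      (Finset.univ.filter (fun x : G ⧸ K => k0 • x = x)).card := by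
  apply Finset.card_bij (fun x _ => h⁻¹ • x)
  · intro x hx
    rw [Finset.mem_filter] at hx ⊢
    refine ⟨Finset.mem_univ _, ?_⟩
    have h1 := hx.2
    rw [inv_smul_eq_iff] at h1
    have h2 : h⁻¹ • ((h * k0 * h⁻¹) • x) = k0 • h⁻¹ • x := by
      rw [← mul_smul, ← mul_smul]
      congr 1
      group
    rw [← h2, ← h1]
  · intro x _ y _ hxy
    exact smul_left_cancel _ hxy
  · intro y hy
    rw [Finset.mem_filter] at hy
    refine ⟨h • y, ?_, ?_⟩
    · rw [Finset.mem_filter]
      refine ⟨Finset.mem_univ _, ?_⟩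
      rw [inv_smul_eq_iff, ← mul_smul]
      have h3 : h * k0 * h⁻¹ * h = h * k0 := by group
      rw [h3, mul_smul, hy.2]
    · rw [inv_smul_smul]

/-- If the average of `ρ` over the `K`-class of `k0` is a nonzero scalar then `k0` acts trivially on
the cosets of `K`. -/
theorem fix_of_scalar [Finite G] [FiniteDimensional ℂ W] (K : Subgroup G) [Fintype K]
    (ρ : Representation ℂ G W)
    (hρ : Irr (resK ρ K)) (hb : ∀ V : FDRep ℂ G, Simple V → finrank ℂ V ≤ finrank ℂ W)
    (k0 : G) (hk0 : k0 ∈ K) (c : ℂ) (hc : ∀ w, ∑ h : K, ρ (h * k0 * (h : G)⁻¹) w = c • w)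
    (hc0 : c ≠ 0) (x : G ⧸ K) : k0 • x = x := by
  classical
  have : Fintype (G ⧸ K) := Fintype.ofFinite _
  let T : (G ⧸ K → W) →ₗ[ℂ] (G ⧸ K → W) :=
    (∑ h : K, act ρ K (h * k0 * (h : G)⁻¹)) - c • LinearMap.id
  have hT : ∀ f, T f = (∑ h : K, act ρ K (h * k0 * (h : G)⁻¹) f) - c • f := by
    intro f
    simp [T]
  let D : Submodule ℂ (G ⧸ K → W) := ⨅ g : G, (LinearMap.ker T).comap (act ρ K g)
  have hmem : ∀ f, f ∈ D ↔ ∀ g : G, T (act ρ K g f) = 0 := by
    intro f
    simp [D, Submodule.mem_iInf]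
  have hinv : Inv (act ρ K) D := by
    intro g' f hf
    rw [hmem] at hf ⊢
    intro g
    have := hf (g * g')
    rw [map_mul] at this
    exact this
  have hD : D = ⊤ := by
    apply eq_top_of_minInv_le (act ρ K) D hinv
    intro U hU f hf
    rw [hmem]
    intro g
    have hf' : act ρ K g f ∈ U := hU.2.1 g f hf
    set f' := act ρ K g f with hf'def
    have hTU : T f' ∈ U := by
      rw [hT]
      apply U.sub_mem
      · exact U.sum_mem (fun h _ => hU.2.1 _ _ hf')
      · exact U.smul_mem _ hf'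
    have hinj := (ev_bij K ρ hρ hb U hU).1
    have h1 : (T f') ((1 : G) : G ⧸ K) = 0 := by
      rw [hT]
      rw [Pi.sub_apply, Finset.sum_apply, Pi.smul_apply, sub_eq_zero, ← hc]
      apply Finset.sum_congr rfl
      intro h _
      rw [act_apply, fix_base K _ (K.inv_mem (K.mul_mem (K.mul_mem h.2 hk0) (K.inv_mem h.2)))]
    have h2 : (⟨T f', hTU⟩ : U) = 0 := by
      apply hinj
      rw [map_zero]
      exact h1
    exact congrArg Subtype.val h2
  obtain ⟨w, hw⟩ := hρ.1
  have key : ∀ x : G ⧸ K, ∑ h : K, (if ((h : G) * k0 * (h : G)⁻¹)⁻¹ • x = x then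
      ρ (h * k0 * (h : G)⁻¹) w else 0) = c • w := by
    intro x
    have h1 : Pi.single x w ∈ D := by rw [hD]; trivial
    rw [hmem] at h1
    have h2 := h1 1
    rw [map_one, Module.End.one_apply, hT, sub_eq_zero] at h2
    have h3 := congrFun h2 x
    rw [Finset.sum_apply, Pi.smul_apply, Pi.single_eq_same] at h3
    rw [← h3]
    apply Finset.sum_congr rfl
    intro h _
    rw [act_apply]
    by_cases hx : ((h : G) * k0 * (h : G)⁻¹)⁻¹ • x = x
    · rw [if_pos hx, hx, Pi.single_eq_same]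
    · rw [if_neg hx, Pi.single_eq_of_ne hx, map_zero]
  have hsum : ∑ x : G ⧸ K, ∑ h : K, (if ((h : G) * k0 * (h : G)⁻¹)⁻¹ • x = x then
      ρ (h * k0 * (h : G)⁻¹) w else 0) = (Fintype.card (G ⧸ K) : ℂ) • c • w := by
    rw [Finset.sum_congr rfl (fun x _ => key x), Finset.sum_const, Finset.card_univ]
    rw [Nat.cast_smul_eq_nsmul]
  rw [Finset.sum_comm] at hsum
  have hsum2 : ∑ h : K, ∑ x : G ⧸ K, (if ((h : G) * k0 * (h : G)⁻¹)⁻¹ • x = x then
      ρ (h * k0 * (h : G)⁻¹) w else 0) =
      ((Finset.univ.filter (fun x : G ⧸ K => k0 • x = x)).card : ℂ) • c • w := by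
    rw [← hc w, Finset.smul_sum]
    apply Finset.sum_congr rfl
    intro h _
    rw [← Finset.sum_filter, Finset.sum_const, card_fix K (h : G) k0, Nat.cast_smul_eq_nsmul]
  rw [hsum2, smul_smul, smul_smul] at hsum
  have h1 := smul_left_injective ℂ hw hsum
  have h2 : ((Finset.univ.filter (fun x : G ⧸ K => k0 • x = x)).card : ℂ) =
      (Fintype.card (G ⧸ K) : ℂ) := mul_right_cancel₀ hc0 h1
  have h3 : (Finset.univ.filter (fun x : G ⧸ K => k0 • x = x)).card = Fintype.card (G ⧸ K) := by
    exact_mod_cast h2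
  rw [← Finset.card_univ, Finset.card_filter_eq_iff] at h3
  exact h3 x (Finset.mem_univ x)

/-- For a normal subgroup on which a representation of maximal dimension stays irreducible the
quotient is commutative. -/
theorem quot_comm [Finite G] [FiniteDimensional ℂ W] (N : Subgroup G) [hN : N.Normal]
    (ρ : Representation ℂ G W) (hρ : Irr (resK ρ N))
    (hb : ∀ V : FDRep ℂ G, Simple V → finrank ℂ V ≤ finrank ℂ W) (a b : G ⧸ N) :
    a * b = b * a := by
  classical
  have hsm : ∀ (g : G) (x : G ⧸ N), g • x = (g : G ⧸ N) * x := by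
    intro g x
    induction x using QuotientGroup.induction_on with
    | H y => rfl
  let D : Submodule ℂ (G ⧸ N → W) :=
    { carrier := {f | ∀ a b x : G ⧸ N, f (a * b * x) = f (b * a * x)}
      add_mem' := by
        intro f f' hf hf' a b x
        show f (a * b * x) + f' (a * b * x) = f (b * a * x) + f' (b * a * x)
        rw [hf a b x, hf' a b x]
      zero_mem' := fun a b x => rfl
      smul_mem' := by
        intro c f hf a b x
        show c • f (a * b * x) = c • f (b * a * x)
        rw [hf a b x] }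
  have hinv : Inv (act ρ N) D := by
    intro g f hf a b x
    show ρ g (f (g⁻¹ • (a * b * x))) = ρ g (f (g⁻¹ • (b * a * x)))
    congr 1
    rw [hsm, hsm]
    set y : G ⧸ N := ((g⁻¹ : G) : G ⧸ N)
    calc f (y * (a * b * x)) = f (y * (a * b) * x) := by rw [mul_assoc y]
      _ = f (a * b * y * x) := hf y (a * b) x
      _ = f (a * b * (y * x)) := by rw [mul_assoc (a * b)]
      _ = f (b * a * (y * x)) := hf a b (y * x)
      _ = f (b * a * y * x) := by rw [mul_assoc (b * a)]
      _ = f (y * (b * a) * x) := hf (b * a) y x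
      _ = f (y * (b * a * x)) := by rw [mul_assoc y]
  have hD : D = ⊤ := by
    apply eq_top_of_minInv_le (act ρ N) D hinv
    intro U hU
    have hbij := ev_bij N ρ hρ hb U hU
    let e : U ≃ₗ[ℂ] W := LinearEquiv.ofBijective _ hbij
    have he : ∀ u : U, e u = (u : G ⧸ N → W) ((1 : G) : G ⧸ N) := fun u => rfl
    have hlam : ∀ x : G ⧸ N, ∃ l : ℂ, ∀ f ∈ U, f x = l • f ((1 : G) : G ⧸ N) := by
      intro x
      let T : W →ₗ[ℂ] W := (LinearMap.proj x) ∘ₗ U.subtype ∘ₗ e.symm.toLinearMap
      have hT : ∀ u : U, T (e u) = (u : G ⧸ N → W) x := by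
        intro u
        show (((e.symm (e u)) : U) : G ⧸ N → W) x = (u : G ⧸ N → W) x
        rw [LinearEquiv.symm_apply_apply]
      obtain ⟨l, hl⟩ := schur (resK ρ N) hρ T (by
        intro n w
        obtain ⟨u, rfl⟩ := e.surjective w
        have h1 : e ⟨act ρ N n u, hU.2.1 n u u.2⟩ = resK ρ N n (e u) := by
          rw [he, he]
          show ρ n ((u : G ⧸ N → W) ((n : G)⁻¹ • ((1 : G) : G ⧸ N))) = ρ n _
          rw [fix_base N _ (N.inv_mem n.2)]
        rw [← h1, hT, hT]
        show ρ n ((u : G ⧸ N → W) ((n : G)⁻¹ • x)) = ρ n ((u : G ⧸ N → W) x)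
        have h2 : (((n : G)⁻¹ : G) : G ⧸ N) = 1 :=
          (QuotientGroup.eq_one_iff _).mpr (N.inv_mem n.2)
        rw [hsm, h2, one_mul])
      refine ⟨l, fun f hf => ?_⟩
      have := hl (e ⟨f, hf⟩)
      rw [hT] at this
      exact this
    choose l hl using hlam
    have hmul : ∀ f ∈ U, ∀ x y : G ⧸ N, f (y * x) = l x • l y • f ((1 : G) : G ⧸ N) := by
      intro f hf x y
      obtain ⟨g, rfl⟩ := QuotientGroup.mk_surjective y
      have h1 := hl x (act ρ N g⁻¹ f) (hU.2.1 _ f hf)
      rw [act_apply, act_apply, hsm, hsm, inv_inv] at h1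
      have h2 : ((1 : G) : G ⧸ N) = 1 := rfl
      have h3 : ρ g (ρ g⁻¹ (f ((g : G ⧸ N) * x))) =
          ρ g (l x • ρ g⁻¹ (f ((g : G ⧸ N) * ((1 : G) : G ⧸ N)))) := by rw [h1]
      have h4 : ∀ w : W, ρ g (ρ g⁻¹ w) = w := by
        intro w
        rw [← Module.End.mul_apply, ← map_mul, mul_inv_cancel, map_one]
        rfl
      rw [map_smul, h4, h4] at h3
      rw [h3]
      have h5 : (g : G ⧸ N) * ((1 : G) : G ⧸ N) = (g : G ⧸ N) := by
        rw [h2, mul_one]
      rw [h5, hl (g : G ⧸ N) f hf]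
    intro f hf a b x
    have h1 : f (a * b) = l b • l a • f ((1 : G) : G ⧸ N) := hmul f hf b a
    have h2 : f (b * a) = l a • l b • f ((1 : G) : G ⧸ N) := hmul f hf a b
    have h3 : f (a * b) = f (b * a) := by rw [h1, h2, smul_comm]
    rw [hmul f hf x (a * b), hmul f hf x (b * a), ← hl (a * b) f hf, ← hl (b * a) f hf, h3]
  obtain ⟨w, hw⟩ := hρ.1
  have h1 : (Pi.single (a * b) w : G ⧸ N → W) ∈ D := by rw [hD]; trivial
  have h2 : (Pi.single (a * b) w : G ⧸ N → W) (a * b * 1) =
      (Pi.single (a * b) w : G ⧸ N → W) (b * a * 1) := h1 a b 1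
  rw [mul_one, mul_one, Pi.single_eq_same] at h2
  by_contra hne
  rw [Pi.single_eq_of_ne (fun h => hne h.symm)] at h2
  exact hw h2

end

end Pool.Agent.H93.Hup
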