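import Pool.Agent.H93.Hup.Basic

set_option autoImplicit false

/-!
# Extension of representations of maximal dimension
-/

namespace Pool.Agent.H93.Hup

open Module CategoryTheory

section

variable {G W : Type} [Group G] [AddCommGroup W] [Module ℂ W]

/-- Right translations on functions on the group. -/
def rtr (G W : Type) [Group G] [AddCommGroup W] [Module ℂ W] : Representation ℂ G (G → W) where
  toFun g :=
    { toFun := fun f x => f (x * g)
      map_add' := fun _ _ => rfl
      map_smul' := fun _ _ => rfl }
  map_one' := by
    ext f x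
    simp
  map_mul' a b := by
    apply LinearMap.ext
    intro f
    funext x
    show f (x * (a * b)) = f (x * a * b)
    rw [mul_assoc]

theorem rtr_apply (g : G) (f : G → W) (x : G) : rtr G W g f x = f (x * g) := rfl

/-- Transport of a representation on an invariant subspace along an isomorphism. -/
def transp {X : Type} [AddCommGroup X] [Module ℂ X] (τ : Representation ℂ G X)
    (U : Submodule ℂ X) (hU : Inv τ U) (e : U ≃ₗ[ℂ] W) : Representation ℂ G W where
  toFun g := e.toLinearMap ∘ₗ ((τ g).restrict (fun v hv => hU g v hv)) ∘ₗ e.symm.toLinearMap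
  map_one' := by
    apply LinearMap.ext
    intro w
    show e ((τ 1).restrict (fun v hv => hU 1 v hv) (e.symm w)) = w
    have : (τ 1).restrict (fun v hv => hU 1 v hv) (e.symm w) = e.symm w := by
      apply Subtype.ext
      show τ 1 (e.symm w : X) = e.symm w
      rw [map_one]
      rfl
    rw [this, LinearEquiv.apply_symm_apply]
  map_mul' a b := by
    apply LinearMap.ext
    intro w
    show e ((τ (a * b)).restrict (fun v hv => hU (a * b) v hv) (e.symm w)) =
      e ((τ a).restrict (fun v hv => hU a v hv) (e.symm (e ((τ b).restrict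
        (fun v hv => hU b v hv) (e.symm w)))))
    rw [LinearEquiv.symm_apply_apply]
    congr 1
    apply Subtype.ext
    show τ (a * b) (e.symm w : X) = τ a (τ b (e.symm w : X))
    rw [map_mul]
    rfl

theorem transp_apply {X : Type} [AddCommGroup X] [Module ℂ X] (τ : Representation ℂ G X)
    (U : Submodule ℂ X) (hU : Inv τ U) (e : U ≃ₗ[ℂ] W) (g : G) (u : U) :
    transp τ U hU e g (e u) = e ⟨τ g u, hU g u u.2⟩ := by
  show e ((τ g).restrict (fun v hv => hU g v hv) (e.symm (e u))) = _
  rw [LinearEquiv.symm_apply_apply]
  rfl

/-- An irreducible representation of a subgroup whose dimension bounds the dimensions of all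
irreducible representations of the group extends to the group. -/
theorem exists_ext [Finite G] [FiniteDimensional ℂ W] (K : Subgroup G) (σ : Representation ℂ K W)
    (hσ : Irr σ) (hb : ∀ V : FDRep ℂ G, Simple V → finrank ℂ V ≤ finrank ℂ W) :
    ∃ ρ : Representation ℂ G W, ∀ (k : K) (w : W), ρ (k : G) w = σ k w := by
  classical
  let F : Submodule ℂ (G → W) :=
    { carrier := {f | ∀ (k : K) (g : G), f (k * g) = σ k (f g)}
      add_mem' := by
        intro a b ha hb k g
        show a (k * g) + b (k * g) = σ k (a g + b g)
        rw [ha k g, hb k g, map_add]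
      zero_mem' := by
        intro k g
        show (0 : W) = σ k 0
        rw [map_zero]
      smul_mem' := by
        intro c a ha k g
        show c • a (k * g) = σ k (c • a g)
        rw [ha k g, map_smul] }
  have hF : Inv (rtr G W) F := by
    intro g f hf k x
    show f (k * x * g) = σ k (f (x * g))
    rw [mul_assoc]
    exact hf k (x * g)
  have hFne : F ≠ ⊥ := by
    obtain ⟨w0, hw0⟩ := hσ.1
    intro h
    have hmem : (fun x : G => if hx : x ∈ K then σ ⟨x, hx⟩ w0 else 0) ∈ F := by
      intro k g
      by_cases hg : g ∈ K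
      · have hkg : (k : G) * g ∈ K := K.mul_mem k.2 hg
        simp only [hg, hkg, dif_pos]
        have : (⟨k * g, hkg⟩ : K) = k * ⟨g, hg⟩ := rfl
        rw [this, map_mul]
        rfl
      · have hkg : (k : G) * g ∉ K := by
          intro h1
          apply hg
          have := K.mul_mem (K.inv_mem k.2) h1
          rwa [inv_mul_cancel_left] at this
        simp only [hg, hkg, dif_neg, not_false_eq_true, map_zero]
    rw [h, Submodule.mem_bot] at hmem
    have h1 := congrFun hmem 1
    simp only [K.one_mem, dif_pos, Pi.zero_apply] at h1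
    have : (⟨1, K.one_mem⟩ : K) = 1 := rfl
    rw [this, map_one] at h1
    exact hw0 h1
  obtain ⟨U, hUF, hU⟩ := exists_minInv (rtr G W) F hF hFne
  let ev : U →ₗ[ℂ] W := (LinearMap.proj (1 : G)) ∘ₗ U.subtype
  have hev : ∀ u : U, ev u = (u : G → W) 1 := fun u => rfl
  have hequi : ∀ (k : K) (u : U), ev ⟨rtr G W k u, hU.2.1 k u u.2⟩ = σ k (ev u) := by
    intro k u
    show (u : G → W) (1 * k) = σ k ((u : G → W) 1)
    have := hUF u.2 k 1
    rw [mul_one] at this
    rw [one_mul]
    exact this
  have hsurj : Function.Surjective ev := by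
    rw [← LinearMap.range_eq_top]
    apply hσ.2
    · rintro k w ⟨u, rfl⟩
      exact ⟨_, hequi k u⟩
    · intro h
      apply hU.1
      rw [Submodule.eq_bot_iff]
      intro f hf
      funext g
      have h1 : ev ⟨rtr G W g f, hU.2.1 g f hf⟩ ∈ LinearMap.range ev := ⟨_, rfl⟩
      rw [h, Submodule.mem_bot] at h1
      have h2 : f (1 * g) = 0 := h1
      rw [one_mul] at h2
      exact h2
  have hle := finrank_minInv_le hb (rtr G W) U hU
  have hge : finrank ℂ W ≤ finrank ℂ U := LinearMap.finrank_le_finrank_of_surjective hsurj
  have hinj : Function.Injective ev :=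
    (LinearMap.injective_iff_surjective_of_finrank_eq_finrank (le_antisymm hle hge)).mpr hsurj
  let e : U ≃ₗ[ℂ] W := LinearEquiv.ofBijective ev ⟨hinj, hsurj⟩
  refine ⟨transp (rtr G W) U hU.2.1 e, ?_⟩
  intro k w
  obtain ⟨u, rfl⟩ := e.surjective w
  rw [transp_apply]
  exact hequi k u

end

end Pool.Agent.H93.Hup
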