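import Pool.Agent.H93.Hup.Main

set_option autoImplicit false

/-!
# Group theoretic consequences
-/

namespace Pool.Agent.H93.Hup

open Module CategoryTheory
open scoped commutatorElement

section

variable {G H : Type} [Group G] [Group H] [Finite G] [Finite H] [IsSimpleGroup H]

/-- The degree condition. -/
def DegLe (G H : Type) [Group G] [Group H] : Prop :=
  ∀ V : FDRep ℂ G, Simple V → ∃ W : FDRep ℂ H, Simple W ∧ finrank ℂ V ≤ finrank ℂ W

/-- The derived subgroup is the embedded simple group. -/
theorem commutator_eq_range (hna : ¬ ∀ a b : H, a * b = b * a) (hb : DegLe G H) (f : H →* G)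
    (hf : Function.Injective f) : commutator G = f.range := by
  let e : H ≃* f.range := MonoidHom.ofInjective hf
  let π : f.range →* H := e.symm.toMonoidHom
  have hπ : Function.Surjective π := e.symm.surjective
  have hπi : Function.Injective π := e.symm.injective
  obtain ⟨h1, h2, _⟩ := main hna hb f.range π hπ
  have h3 : f.range ≤ f.range.normalCore := by
    intro k hk
    obtain ⟨k', hk', he⟩ := h1 (π ⟨k, hk⟩)
    have := hπi he
    rw [this] at hk'
    exact hk'
  apply le_antisymm
  · exact h2.trans (Subgroup.normalCore_le _)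
  · rintro _ ⟨h, rfl⟩
    have h4 : h ∈ commutator H := by rw [perfect hna]; trivial
    have h5 : f h ∈ (commutator H).map f := ⟨h, h4, rfl⟩
    rw [commutator_def, Subgroup.map_commutator] at h5
    rw [commutator_def]
    exact Subgroup.commutator_mono le_top le_top h5

/-- The centralizer of the embedded simple group is the center. -/
theorem centralizer_eq_center (hna : ¬ ∀ a b : H, a * b = b * a) (hb : DegLe G H) (f : H →* G)
    (hf : Function.Injective f) : Subgroup.centralizer (f.range : Set G) = Subgroup.center G := by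
  have hcomm := commutator_eq_range hna hb f hf
  have hnorm : f.range.Normal := by rw [← hcomm]; infer_instance
  apply le_antisymm
  · intro c hc
    rw [Subgroup.mem_center_iff]
    intro g
    have hCn : (Subgroup.centralizer (f.range : Set G)).Normal := inferInstance
    have h1 : ⁅c, g⁆ ∈ f.range := by
      rw [← hcomm]
      exact Subgroup.commutator_mem_commutator (Subgroup.mem_top c) (Subgroup.mem_top g)
    have h2 : ⁅c, g⁆ ∈ Subgroup.centralizer (f.range : Set G) := by
      rw [commutatorElement_def]
      have h3 : c * g * c⁻¹ * g⁻¹ = c * (g * c⁻¹ * g⁻¹) := by group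
      rw [h3]
      exact Subgroup.mul_mem _ hc (hCn.conj_mem _ (Subgroup.inv_mem _ hc) g)
    obtain ⟨h, hh⟩ := h1
    have h4 : h ∈ Subgroup.center H := by
      rw [Subgroup.mem_center_iff]
      intro x
      apply hf
      rw [map_mul, map_mul, hh]
      exact (Subgroup.mem_centralizer_iff.mp h2 (f x) ⟨x, rfl⟩)
    rw [center_bot hna, Subgroup.mem_bot] at h4
    rw [h4, map_one] at hh
    have h5 := commutatorElement_eq_one_iff_mul_comm.mp hh.symm
    exact h5.symm
  · exact Subgroup.center_le_centralizer _

/-- If all elements act by inner automorphisms, the group is a direct product. -/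
theorem product_of_inner (hna : ¬ ∀ a b : H, a * b = b * a) (hb : DegLe G H) (f : H →* G)
    (hf : Function.Injective f)
    (hin : ∀ g : G, ∃ h : H, ∀ x : H, g * f x * g⁻¹ = f (h * x * h⁻¹)) :
    Nonempty (G ≃* H × Subgroup.center G) := by
  have hcc := centralizer_eq_center hna hb f hf
  let Φ : H × Subgroup.center G →* G :=
    { toFun := fun p => f p.1 * p.2
      map_one' := by simp
      map_mul' := by
        rintro ⟨a, z⟩ ⟨b, y⟩
        show f (a * b) * ((z * y : Subgroup.center G) : G) = f a * z * (f b * y)
        rw [map_mul, Subgroup.coe_mul]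
        have h1 : f b * (z : G) = z * f b := Subgroup.mem_center_iff.mp z.2 (f b)
        calc f a * f b * (z * y) = f a * (f b * z) * y := by group
          _ = f a * (z * f b) * y := by rw [h1]
          _ = f a * z * (f b * y) := by group }
  have hinj : Function.Injective Φ := by
    rw [injective_iff_map_eq_one]
    rintro ⟨a, z⟩ h
    have h1 : f a * (z : G) = 1 := h
    have h2 : f a = (z : G)⁻¹ := eq_inv_of_mul_eq_one_left h1
    have h3 : a ∈ Subgroup.center H := by
      rw [Subgroup.mem_center_iff]
      intro x
      apply hf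
      rw [map_mul, map_mul, h2]
      exact (Subgroup.mem_center_iff.mp (Subgroup.inv_mem _ z.2) (f x))
    rw [center_bot hna, Subgroup.mem_bot] at h3
    rw [h3, map_one, one_mul] at h1
    rw [h3]
    have h4 : z = 1 := Subtype.ext h1
    rw [h4]
    rfl
  have hsurj : Function.Surjective Φ := by
    intro g
    obtain ⟨h, hh⟩ := hin g
    have h1 : (f h)⁻¹ * g ∈ Subgroup.center G := by
      rw [← hcc, Subgroup.mem_centralizer_iff]
      rintro _ ⟨x, rfl⟩
      have h2 := hh x
      rw [map_mul, map_mul, map_inv] at h2
      have h3 : g * f x = f h * f x * (f h)⁻¹ * g := by rw [← h2]; group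
      calc f x * ((f h)⁻¹ * g) = (f h)⁻¹ * (f h * f x * (f h)⁻¹ * g) := by group
        _ = (f h)⁻¹ * (g * f x) := by rw [h3]
        _ = (f h)⁻¹ * g * f x := by group
    refine ⟨(h, ⟨_, h1⟩), ?_⟩
    show f h * ((f h)⁻¹ * g) = g
    group
  exact ⟨(MulEquiv.ofBijective Φ ⟨hinj, hsurj⟩).symm⟩

/-- If the simple group is both a quotient and a subgroup, the group is a direct product. -/
theorem product_of_quotient (hna : ¬ ∀ a b : H, a * b = b * a) (hb : DegLe G H) (π : G →* H)
    (hπ : Function.Surjective π) (s : H →* G) (hs : Function.Injective s) :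
    Nonempty (G ≃* H × Subgroup.center G) := by
  have hcomm := commutator_eq_range hna hb s hs
  -- the composition is bijective
  have hker : ∀ h : H, π (s h) = 1 → h = 1 := by
    have hk : (MonoidHom.ker (π.comp s)).Normal := inferInstance
    rcases hk.eq_bot_or_eq_top with h1 | h1
    · intro h hh
      have : h ∈ MonoidHom.ker (π.comp s) := MonoidHom.mem_ker.mpr hh
      rw [h1, Subgroup.mem_bot] at this
      exact this
    · exfalso
      apply hna
      intro a b
      obtain ⟨x, rfl⟩ := hπ a
      obtain ⟨y, rfl⟩ := hπ b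
      have h2 : ⁅x, y⁆ ∈ commutator G :=
        Subgroup.commutator_mem_commutator (Subgroup.mem_top x) (Subgroup.mem_top y)
      rw [hcomm] at h2
      obtain ⟨h, hh⟩ := h2
      have h3 : h ∈ MonoidHom.ker (π.comp s) := by rw [h1]; trivial
      have h4 : π (s h) = 1 := MonoidHom.mem_ker.mp h3
      rw [hh, map_commutatorElement, commutatorElement_eq_one_iff_mul_comm] at h4
      exact h4
  have hinj : Function.Injective (π.comp s) := by
    rw [injective_iff_map_eq_one]
    exact hker
  have hbij : Function.Surjective (π.comp s) := Finite.surjective_of_injective hinj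
  apply product_of_inner hna hb s hs
  intro g
  obtain ⟨h, hh⟩ := hbij (π g)
  have hh' : π (s h) = π g := hh
  have hn : π ((s h)⁻¹ * g) = 1 := by rw [map_mul, map_inv, hh', inv_mul_cancel]
  refine ⟨h, fun x => ?_⟩
  set n := (s h)⁻¹ * g with hndef
  have hg : g = s h * n := by rw [hndef]; group
  have hnc : n * s x * n⁻¹ = s x := by
    have h1 : ⁅n, s x⁆ ∈ commutator G :=
      Subgroup.commutator_mem_commutator (Subgroup.mem_top n) (Subgroup.mem_top (s x))
    rw [hcomm] at h1
    obtain ⟨y, hy⟩ := h1
    have h2 : π (s y) = 1 := by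
      rw [hy, commutatorElement_def, map_mul, map_mul, map_mul, map_inv, map_inv, hn]
      simp
    rw [hker y h2, map_one] at hy
    have h3 := commutatorElement_eq_one_iff_mul_comm.mp hy.symm
    rw [h3]
    group
  calc g * s x * g⁻¹ = s h * (n * s x * n⁻¹) * (s h)⁻¹ := by rw [hg]; group
    _ = s (h * x * h⁻¹) := by rw [hnc, map_mul, map_mul, map_inv]

omit [Finite G] [Finite H] [IsSimpleGroup H] in
/-- If the simple group is a quotient by a normal Hall subgroup, it is also a subgroup. -/
theorem exists_section_of_coprime [Finite G] (π : G →* H) (hπ : Function.Surjective π)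
    (hc : Nat.Coprime (Nat.card π.ker) (Nat.card H)) : ∃ s : H →* G, Function.Injective s := by
  have hidx : (MonoidHom.ker π).index = Nat.card H := by
    rw [Subgroup.index_ker, MonoidHom.range_eq_top.mpr hπ, Subgroup.card_top]
  rw [← hidx] at hc
  obtain ⟨L, hL⟩ := Subgroup.exists_right_complement'_of_coprime hc
  have hinj : Function.Injective (π.comp L.subtype) := by
    rw [injective_iff_map_eq_one]
    intro l hl
    have h1 : (l : G) ∈ MonoidHom.ker π ⊓ L := ⟨MonoidHom.mem_ker.mpr hl, l.2⟩
    rw [hL.disjoint.eq_bot, Subgroup.mem_bot] at h1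
    exact Subtype.ext h1
  have hsurj : Function.Surjective (π.comp L.subtype) := by
    intro h
    obtain ⟨g, rfl⟩ := hπ h
    have h2 : g ∈ MonoidHom.ker π ⊔ L := by rw [hL.sup_eq_top]; trivial
    rw [Subgroup.mem_sup_of_normal_left] at h2
    obtain ⟨n, hn, l, hl, rfl⟩ := h2
    refine ⟨⟨l, hl⟩, ?_⟩
    show π l = π (n * l)
    rw [map_mul, MonoidHom.mem_ker.mp hn, one_mul]
  let e : L ≃* H := MulEquiv.ofBijective (π.comp L.subtype) ⟨hinj, hsurj⟩
  exact ⟨L.subtype.comp e.symm.toMonoidHom, L.subtype_injective.comp e.symm.injective⟩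

/-- The Frattini subgroup of a simple group is trivial. -/
theorem frattini_simple (H : Type) [Group H] [Finite H] [IsSimpleGroup H] :
    frattini H = ⊥ := by
  rcases (inferInstance : (frattini H).Normal).eq_bot_or_eq_top with h | h
  · exact h
  · exfalso
    rcases eq_top_or_exists_le_coatom (⊥ : Subgroup H) with h1 | ⟨Y, hY, _⟩
    · exact bot_ne_top h1
    · have h2 := frattini_le_coatom hY
      rw [h, top_le_iff] at h2
      exact hY.1 h2

/-- The case of a section: the derived subgroup is perfect and is a Frattini cover of the simple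
group. -/
theorem frattini_case (hna : ¬ ∀ a b : H, a * b = b * a) (hb : DegLe G H) (K : Subgroup G)
    (π0 : K →* H) (hπ0 : Function.Surjective π0) :
    commutator (commutator G) = ⊤ ∧
      Nonempty (commutator G ⧸ frattini (commutator G) ≃* H) := by
  let S : Set (Subgroup G) := {X | ∃ π : X →* H, Function.Surjective π}
  have hS : S.Nonempty := ⟨K, π0, hπ0⟩
  have hwf : WellFounded ((· < ·) : Subgroup G → Subgroup G → Prop) := wellFounded_lt
  obtain ⟨X, hXS, hmin⟩ := hwf.has_min S hS
  have key : ∀ Y ∈ S, Y ≤ X → Y = X := by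
    intro Y hY hle
    by_contra hne
    exact hmin Y hY (lt_of_le_of_ne hle hne)
  obtain ⟨π, hπ⟩ := hXS
  obtain ⟨h1, h2, _⟩ := main hna hb X π hπ
  have hN : X.normalCore = X := by
    apply key _ _ (Subgroup.normalCore_le X)
    refine ⟨π.comp (Subgroup.inclusion (Subgroup.normalCore_le X)), ?_⟩
    intro h
    obtain ⟨k, hk, rfl⟩ := h1 h
    exact ⟨⟨k, hk⟩, rfl⟩
  have hYX : (commutator X).map X.subtype ≤ X := by
    rintro _ ⟨x, _, rfl⟩
    exact x.2
  have hY : (commutator X).map X.subtype = X := by
    apply key _ _ hYX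
    refine ⟨π.comp (Subgroup.inclusion hYX), ?_⟩
    intro h
    have h3 : h ∈ (commutator X).map π := by
      rw [commutator_def, Subgroup.map_commutator, ← MonoidHom.range_eq_map,
        MonoidHom.range_eq_top.mpr hπ, ← commutator_def, perfect hna]
      trivial
    obtain ⟨x, hx, he⟩ := h3
    exact ⟨⟨x, ⟨x, hx, rfl⟩⟩, he⟩
  have hperf : commutator X = ⊤ := by
    rw [eq_top_iff]
    intro x _
    have h3 : (x : G) ∈ (commutator X).map X.subtype := by rw [hY]; exact x.2
    obtain ⟨y, hy, he⟩ := h3
    have : y = x := Subtype.ext he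
    rw [← this]
    exact hy
  have hXG : X = commutator G := by
    apply le_antisymm
    · rw [← hY, commutator_def, Subgroup.map_commutator, commutator_def]
      exact Subgroup.commutator_mono le_top le_top
    · rw [hN] at h2
      exact h2
  have hker : MonoidHom.ker π = frattini X := by
    apply le_antisymm
    · unfold frattini Order.radical
      refine le_iInf₂ ?_
      intro Y hYc
      have hYc' : IsCoatom Y := hYc
      by_contra hnot
      have hlt : Y < Y ⊔ MonoidHom.ker π := by
        refine lt_of_le_of_ne le_sup_left ?_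
        intro h
        exact hnot (h ▸ le_sup_right)
      have htop := hYc'.2 _ hlt
      have hle : Y.map X.subtype ≤ X := by
        rintro _ ⟨x, _, rfl⟩
        exact x.2
      have h3 : Y.map X.subtype = X := by
        apply key _ _ hle
        refine ⟨π.comp (Subgroup.inclusion hle), ?_⟩
        intro h
        obtain ⟨x, rfl⟩ := hπ h
        have hx : x ∈ Y ⊔ MonoidHom.ker π := by rw [htop]; trivial
        rw [Subgroup.mem_sup_of_normal_right] at hx
        obtain ⟨y, hy, k, hk, rfl⟩ := hx
        refine ⟨⟨y, ⟨y, hy, rfl⟩⟩, ?_⟩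
        show π y = π (y * k)
        rw [map_mul, MonoidHom.mem_ker.mp hk, mul_one]
      apply hYc'.1
      rw [eq_top_iff]
      intro x _
      have h4 : (x : G) ∈ Y.map X.subtype := by rw [h3]; exact x.2
      obtain ⟨y, hy, he⟩ := h4
      have : y = x := Subtype.ext he
      rw [← this]
      exact hy
    · have h3 := frattini_le_comap_frattini_of_surjective hπ
      rw [frattini_simple H] at h3
      exact h3
  subst hXG
  exact ⟨hperf, ⟨(QuotientGroup.quotientMulEquivOfEq hker.symm).trans
    (QuotientGroup.quotientKerEquivOfSurjective π hπ)⟩⟩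

omit [Finite H] [IsSimpleGroup H] in
/-- The primes dividing the order of a Frattini cover divide the order of the quotient. -/
theorem prime_dvd_of_frattini (e : G ⧸ frattini G ≃* H) (p : ℕ) (hp : p.Prime)
    (hd : p ∣ Nat.card G) : p ∣ Nat.card H := by
  classical
  have hpf : Fact p.Prime := ⟨hp⟩
  by_contra hnd
  have hnil : Group.IsNilpotent (frattini G) := frattini_nilpotent
  obtain ⟨Q⟩ : Nonempty (Sylow p (frattini G)) := inferInstance
  have hQn : (Q : Subgroup (frattini G)).Normal := by
    have h1 := (Group.isNilpotent_of_finite_tfae (G := frattini G)).out 0 3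
    exact h1.mp hnil p hpf Q
  have hQc : (Q : Subgroup (frattini G)).Characteristic := Sylow.characteristic_of_normal Q hQn
  let R : Subgroup G := (Q : Subgroup (frattini G)).map (frattini G).subtype
  have hRn : R.Normal := ConjAct.normal_of_characteristic_of_normal
  have hRle : R ≤ frattini G := by
    rintro _ ⟨x, _, rfl⟩
    exact x.2
  have hcardR : Nat.card R = Nat.card (Q : Subgroup (frattini G)) :=
    Nat.card_congr ((Q : Subgroup (frattini G)).equivMapOfInjective _
      (frattini G).subtype_injective).symm.toEquiv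
  have hidx : R.index = (Q : Subgroup (frattini G)).index * Nat.card H := by
    have h1 : (frattini G).index = Nat.card H := by
      rw [Subgroup.index, Nat.card_congr e.toEquiv]
    have h2 : R.index * Nat.card R = Nat.card G := Subgroup.index_mul_card R
    have h3 : (frattini G).index * Nat.card (frattini G) = Nat.card G :=
      Subgroup.index_mul_card _
    have h4 : (Q : Subgroup (frattini G)).index * Nat.card (Q : Subgroup (frattini G)) =
        Nat.card (frattini G) := Subgroup.index_mul_card _
    have h5 : 0 < Nat.card (Q : Subgroup (frattini G)) := Nat.card_pos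
    rw [hcardR] at h2
    apply Nat.eq_of_mul_eq_mul_right h5
    rw [h2, ← h3, h1, ← h4]
    ring
  have hcop : Nat.Coprime (Nat.card R) R.index := by
    rw [hcardR, hidx]
    obtain ⟨n, hn⟩ := IsPGroup.iff_card.mp Q.isPGroup'
    rw [hn]
    apply Nat.Coprime.pow_left
    rw [Nat.Prime.coprime_iff_not_dvd hp]
    intro h
    rcases (Nat.Prime.dvd_mul hp).mp h with h1 | h1
    · exact Q.not_dvd_index h1
    · exact hnd h1
  obtain ⟨L, hL⟩ := Subgroup.exists_right_complement'_of_coprime hcop
  have hLtop : L = ⊤ := by
    apply frattini_nongenerating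
    rw [eq_top_iff, ← hL.sup_eq_top]
    exact sup_le (hRle.trans le_sup_right) le_sup_left
  have hRbot : R = ⊥ := by
    have h1 := hL.disjoint.eq_bot
    rw [hLtop, inf_top_eq] at h1
    exact h1
  have h1 : R.index = Nat.card G := by rw [hRbot, Subgroup.index_bot]
  rw [hidx] at h1
  rw [← h1] at hd
  rcases (Nat.Prime.dvd_mul hp).mp hd with h2 | h2
  · exact Q.not_dvd_index h2
  · exact hnd h2

/-- If all automorphisms of the simple group are inner, the group is a direct product. -/
theorem product_of_complete (hna : ¬ ∀ a b : H, a * b = b * a) (hb : DegLe G H) (f : H →* G)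
    (hf : Function.Injective f) (hout : ∀ φ : H ≃* H, ∃ h : H, ∀ x, φ x = h * x * h⁻¹) :
    Nonempty (G ≃* H × Subgroup.center G) := by
  apply product_of_inner hna hb f hf
  intro g
  have hcomm := commutator_eq_range hna hb f hf
  have hnorm : f.range.Normal := by rw [← hcomm]; infer_instance
  let e : H ≃* f.range := MonoidHom.ofInjective hf
  let φ : H ≃* H := (e.trans (MulAut.conjNormal g)).trans e.symm
  obtain ⟨h, hh⟩ := hout φ
  refine ⟨h, fun x => ?_⟩
  have h1 : e (φ x) = MulAut.conjNormal g (e x) := by
    show e (e.symm (MulAut.conjNormal g (e x))) = _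
    rw [MulEquiv.apply_symm_apply]
  have h2 := congrArg Subtype.val h1
  rw [MulAut.conjNormal_apply] at h2
  rw [← hh x]
  exact h2.symm

/-- A section of a nonabelian simple group with the same largest degree is the whole group. -/
theorem sub_case {G H : Type} [Group G] [Group H] [Finite G] [Finite H] [IsSimpleGroup H]
    (hna : ¬ ∀ a b : H, a * b = b * a) (hb : DegLe H G) (K : Subgroup H) (π : K →* G)
    (hπ : Function.Surjective π) : Nonempty (G ≃* H) := by
  classical
  -- a representation of maximal dimension
  obtain ⟨V1, hV1, h21, _⟩ := exists_max hna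
  have hG : ¬ ∀ a b : G, a * b = b * a := by
    intro hab
    obtain ⟨V, hV, hle⟩ := hb V1 hV1
    have h2 : 2 ≤ finrank ℂ V := h21.trans hle
    have hnt := Pool.Agent.H13.nontrivial_of_simple V
    obtain ⟨v0, hv0⟩ := exists_ne (0 : V)
    have hσ : Irr V.ρ := ⟨⟨v0, hv0⟩, fun U hU hne => Pool.Agent.H13.eq_top_of_simple V U hU hne⟩
    -- every operator is a scalar
    have hsp : (Submodule.span ℂ {v0}) = ⊤ := by
      apply hσ.2
      · intro g v hv
        obtain ⟨c, hc⟩ := schur V.ρ hσ (V.ρ g) (by
          intro g' x
          rw [← Module.End.mul_apply, ← Module.End.mul_apply, ← map_mul, ← map_mul, hab])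
        rw [hc]
        exact Submodule.smul_mem _ _ hv
      · rw [Ne, Submodule.span_singleton_eq_bot]
        exact hv0
    have h3 := finrank_span_singleton (K := ℂ) hv0
    rw [hsp, finrank_top] at h3
    omega
  obtain ⟨V, hV, h2, hmax⟩ := exists_max hG
  have hb' : ∀ X : FDRep ℂ H, Simple X → finrank ℂ X ≤ finrank ℂ V := by
    intro X hX
    obtain ⟨Y, hY, hle⟩ := hb X hX
    exact hle.trans (hmax Y hY)
  have hnt := Pool.Agent.H13.nontrivial_of_simple V
  obtain ⟨v0, hv0⟩ := exists_ne (0 : V)
  have hσ : Irr V.ρ := ⟨⟨v0, hv0⟩, fun U hU hne => Pool.Agent.H13.eq_top_of_simple V U hU hne⟩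
  have hirrK : Irr (V.ρ.comp π) := by
    refine ⟨hσ.1, fun U hU hne => hσ.2 U ?_ hne⟩
    intro h v hv
    obtain ⟨k, rfl⟩ := hπ h
    exact hU k v hv
  obtain ⟨ρ, hρ⟩ := exists_ext K (V.ρ.comp π) hirrK hb'
  obtain ⟨k, hk, hne⟩ := core_not_ker K (V.ρ.comp π) hirrK h2 hb' ρ hρ
  have hk1 : (k : H) ≠ 1 := by
    intro h
    apply hne
    have : k = 1 := Subtype.ext h
    rw [this, map_one]
  have hcore : K.normalCore = ⊤ := by
    rcases (inferInstance : K.normalCore.Normal).eq_bot_or_eq_top with h | h
    · rw [h, Subgroup.mem_bot] at hk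
      exact absurd hk hk1
    · exact h
  have hK : K = ⊤ := by
    rw [eq_top_iff, ← hcore]
    exact K.normalCore_le
  subst hK
  let ψ : H →* G := π.comp (Subgroup.topEquiv (G := H)).symm.toMonoidHom
  have hψ : Function.Surjective ψ := hπ.comp (Subgroup.topEquiv (G := H)).symm.surjective
  have hinj : Function.Injective ψ := by
    rcases (inferInstance : (MonoidHom.ker ψ).Normal).eq_bot_or_eq_top with h | h
    · exact (MonoidHom.ker_eq_bot_iff ψ).mp h
    · exfalso
      apply hG
      intro a b
      obtain ⟨x, rfl⟩ := hψ a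
      obtain ⟨y, rfl⟩ := hψ b
      have hx : x ∈ MonoidHom.ker ψ := by rw [h]; trivial
      have hy : y ∈ MonoidHom.ker ψ := by rw [h]; trivial
      rw [MonoidHom.mem_ker.mp hx, MonoidHom.mem_ker.mp hy]
  exact ⟨(MulEquiv.ofBijective ψ ⟨hinj, hψ⟩).symm⟩

end

end Pool.Agent.H93.Hup
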