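import Pool.Agent.H93.Hup.Core

set_option autoImplicit false

/-!
# Groups involving a simple group with the same largest character degree
-/

namespace Pool.Agent.H93.Hup

open Module CategoryTheory
open scoped BigOperators commutatorElement

/-- The maximal dimension of the simple objects is attained and at least two for a nonabelian
group. -/
theorem exists_max {H : Type} [Group H] [Finite H] (hna : ¬ ∀ a b : H, a * b = b * a) :
    ∃ V : FDRep ℂ H, Simple V ∧ 2 ≤ finrank ℂ V ∧
      ∀ W : FDRep ℂ H, Simple W → finrank ℂ W ≤ finrank ℂ V := by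
  classical
  let S : Set ℕ := {n | ∃ V : FDRep ℂ H, Simple V ∧ finrank ℂ V = n}
  have hbdd : BddAbove S := by
    refine ⟨Nat.card H, ?_⟩
    rintro n ⟨V, hV, rfl⟩
    exact Pool.Agent.H13.finrank_le_card V
  have htwo : ∃ V : FDRep ℂ H, Simple V ∧ 2 ≤ finrank ℂ V := by
    push Not at hna
    obtain ⟨a, b, hab⟩ := hna
    let e : MonoidAlgebra ℂ H := MonoidAlgebra.single (a * b) 1 - MonoidAlgebra.single (b * a) 1
    have he : e ≠ 0 := by
      intro h
      apply hab
      exact MonoidAlgebra.of_injective (R := ℂ) (sub_eq_zero.mp h)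
    obtain ⟨V, hV, v, hv⟩ := Pool.Agent.H13.exists_simple_apply_ne_zero e he
    refine ⟨V, hV, ?_⟩
    by_contra hlt
    have hle : finrank ℂ V ≤ 1 := by omega
    apply hv
    have h1 : Representation.asAlgebraHom V.ρ e v = V.ρ a (V.ρ b v) - V.ρ b (V.ρ a v) := by
      simp only [e, map_sub, Representation.asAlgebraHom_single, LinearMap.sub_apply, one_smul,
        map_mul]
      rfl
    rw [h1]
    obtain ⟨u, hu⟩ := finrank_le_one_iff.mp hle
    obtain ⟨α, hα⟩ := hu (V.ρ a u)
    obtain ⟨β, hβ⟩ := hu (V.ρ b u)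
    obtain ⟨γ, hγ⟩ := hu v
    rw [← hγ]
    simp only [map_smul, ← hα, ← hβ, smul_smul]
    rw [sub_eq_zero]
    congr 1
    ring
  obtain ⟨V1, hV1, h2⟩ := htwo
  have hne : S.Nonempty := ⟨finrank ℂ V1, V1, hV1, rfl⟩
  obtain ⟨V, hV, hVn⟩ := Nat.sSup_mem hne hbdd
  refine ⟨V, hV, ?_, ?_⟩
  · rw [hVn]
    exact h2.trans (le_csSup hbdd ⟨V1, hV1, rfl⟩)
  · intro W hW
    rw [hVn]
    exact le_csSup hbdd ⟨W, hW, rfl⟩

section

variable {G W : Type} [Group G] [AddCommGroup W] [Module ℂ W]

/-- An irreducible representation of dimension at least two has no nonzero fixed vector. -/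
theorem fixed_eq_zero [FiniteDimensional ℂ W] (σ : Representation ℂ G W) (hσ : Irr σ)
    (h2 : 2 ≤ finrank ℂ W) (w : W) (hw : ∀ g, σ g w = w) : w = 0 := by
  by_contra hne
  have h1 : (Submodule.span ℂ {w}) = ⊤ := by
    apply hσ.2
    · intro g v hv
      rw [Submodule.mem_span_singleton] at hv ⊢
      obtain ⟨a, rfl⟩ := hv
      exact ⟨a, by rw [map_smul, hw]⟩
    · rw [Ne, Submodule.span_singleton_eq_bot]
      exact hne
  have h3 := finrank_span_singleton (K := ℂ) hne
  rw [h1, finrank_top] at h3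
  omega

end

section

variable {G H W : Type} [Group G] [Group H] [Finite G] [AddCommGroup W] [Module ℂ W]
  [FiniteDimensional ℂ W]

/-- The core of the subgroup acts nontrivially. -/
theorem core_not_ker (K : Subgroup G) (σ : Representation ℂ K W) (hσ : Irr σ)
    (h2 : 2 ≤ finrank ℂ W) (hb : ∀ V : FDRep ℂ G, Simple V → finrank ℂ V ≤ finrank ℂ W)
    (ρ : Representation ℂ G W) (hρ : ∀ (k : K) (w : W), ρ (k : G) w = σ k w) :
    ∃ k : K, (k : G) ∈ K.normalCore ∧ σ k ≠ 1 := by
  classical
  have : Fintype K := Fintype.ofFinite _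
  have hirr : Irr (resK ρ K) := by
    refine ⟨hσ.1, fun U hU hne => hσ.2 U ?_ hne⟩
    intro k v hv
    rw [← hρ]
    exact hU k v hv
  by_contra hcon
  push Not at hcon
  have hker : ∀ k : K, (k : G) ∈ K.normalCore → σ k = 1 := hcon
  have hsc : ∀ k : K, ∃ c : ℂ, ∀ w, ∑ h : K, ρ (h * k * (h : G)⁻¹) w = c • w := by
    intro k
    obtain ⟨c, hc⟩ := schur (resK ρ K) hirr (∑ h : K, ρ (h * k * (h : G)⁻¹)) (by
      intro g x
      rw [LinearMap.sum_apply, LinearMap.sum_apply, map_sum]
      apply Fintype.sum_equiv (Equiv.mulLeft g⁻¹)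
      intro h
      rw [resK_apply, resK_apply, ← Module.End.mul_apply, ← Module.End.mul_apply, ← map_mul,
        ← map_mul]
      congr 2
      simp only [Equiv.coe_mulLeft, Subgroup.coe_mul, Subgroup.coe_inv]
      group)
    refine ⟨c, fun w => ?_⟩
    rw [← hc w, LinearMap.sum_apply]
  choose c hc using hsc
  obtain ⟨w, hw⟩ := hσ.1
  have hc0 : ∀ k : K, σ k ≠ 1 → c k = 0 := by
    intro k hk
    by_contra hne
    apply hk
    apply hker
    have hfix := fix_of_scalar K ρ hirr hb k k.2 (c k) (hc k) hne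
    rw [Subgroup.normalCore_eq_ker, MonoidHom.mem_ker]
    apply Equiv.Perm.ext
    intro x
    exact hfix x
  have hc1 : ∀ k : K, σ k = 1 → c k = (Fintype.card K : ℂ) := by
    intro k hk
    have h1 : ∀ h : K, ρ (h * k * (h : G)⁻¹) w = w := by
      intro h
      have h3 := hρ (h * k * h⁻¹) w
      have h4 : σ (h * k * h⁻¹) = 1 := by
        rw [map_mul, map_mul, hk, mul_one, ← map_mul, mul_inv_cancel, map_one]
      rw [h4, Module.End.one_apply] at h3
      exact h3
    have h5 := hc k w
    rw [Finset.sum_congr rfl (fun h _ => h1 h), Finset.sum_const, Finset.card_univ,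
      ← Nat.cast_smul_eq_nsmul ℂ] at h5
    exact (smul_left_injective ℂ hw h5).symm
  have hS : ∑ k : K, ρ k w = 0 := by
    apply fixed_eq_zero (resK ρ K) hirr h2
    intro g
    rw [map_sum]
    apply Fintype.sum_equiv (Equiv.mulLeft g)
    intro k
    rw [resK_apply, ← Module.End.mul_apply, ← map_mul]
    rfl
  have h1 : ∑ k : K, ∑ h : K, ρ (h * k * (h : G)⁻¹) w = 0 := by
    rw [Finset.sum_comm]
    apply Finset.sum_eq_zero
    intro h _
    rw [← hS]
    apply Fintype.sum_equiv (MulAut.conj h).toEquiv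
    intro k
    rfl
  have h3 : ∑ k : K, c k = 0 := by
    have h4 : (∑ k : K, c k) • w = 0 := by
      rw [Finset.sum_smul, ← h1]
      exact Finset.sum_congr rfl (fun k _ => (hc k w).symm)
    rcases smul_eq_zero.mp h4 with h | h
    · exact h
    · exact absurd h hw
  have h5 : ∑ k : K, c k =
      (((Finset.univ.filter (fun k : K => σ k = 1)).card : ℕ) : ℂ) * (Fintype.card K : ℂ) := by
    rw [← Finset.sum_filter_add_sum_filter_not Finset.univ (fun k : K => σ k = 1)]
    rw [Finset.sum_congr rfl (fun k hk => hc1 k (Finset.mem_filter.mp hk).2),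
      Finset.sum_eq_zero (s := Finset.univ.filter (fun k : K => ¬ σ k = 1))
        (fun k hk => hc0 k (Finset.mem_filter.mp hk).2), Finset.sum_const, add_zero,
      nsmul_eq_mul]
  rw [h5] at h3
  rcases mul_eq_zero.mp h3 with h | h
  · have h6 : (Finset.univ.filter (fun k : K => σ k = 1)).card = 0 := by exact_mod_cast h
    rw [Finset.card_eq_zero, Finset.filter_eq_empty_iff] at h6
    exact h6 (Finset.mem_univ (1 : K)) (map_one σ)
  · have h6 : Fintype.card K = 0 := by exact_mod_cast h
    exact absurd h6 Fintype.card_ne_zero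

/-- The image of the core is everything. -/
theorem core_map_top [IsSimpleGroup H] (K : Subgroup G) (π : K →* H)
    (hπ : Function.Surjective π) (σ : Representation ℂ H W) (hσ : Irr σ) (h2 : 2 ≤ finrank ℂ W)
    (hb : ∀ V : FDRep ℂ G, Simple V → finrank ℂ V ≤ finrank ℂ W)
    (ρ : Representation ℂ G W) (hρ : ∀ (k : K) (w : W), ρ (k : G) w = σ (π k) w) :
    ∀ h : H, ∃ k : K, (k : G) ∈ K.normalCore ∧ π k = h := by
  have hirr : Irr (σ.comp π) := by
    refine ⟨hσ.1, fun U hU hne => hσ.2 U ?_ hne⟩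
    intro h v hv
    obtain ⟨k, rfl⟩ := hπ h
    exact hU k v hv
  obtain ⟨k0, hk0, hne⟩ := core_not_ker K (σ.comp π) hirr h2 hb ρ hρ
  let N' : Subgroup H := (K.normalCore.subgroupOf K).map π
  have hN' : N'.Normal := by
    have : (K.normalCore.subgroupOf K).Normal := inferInstance
    exact this.map π hπ
  rcases hN'.eq_bot_or_eq_top with hbot | htop
  · exfalso
    apply hne
    have h1 : π k0 ∈ N' := ⟨k0, hk0, rfl⟩
    rw [hbot, Subgroup.mem_bot] at h1
    show σ (π k0) = 1
    rw [h1, map_one]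
  · intro h
    have : h ∈ N' := by rw [htop]; trivial
    obtain ⟨k, hk, hkh⟩ := this
    exact ⟨k, hk, hkh⟩

end

/-- A nonabelian simple group is perfect. -/
theorem perfect {H : Type} [Group H] [IsSimpleGroup H] (hna : ¬ ∀ a b : H, a * b = b * a) :
    commutator H = ⊤ := by
  rcases (inferInstance : (commutator H).Normal).eq_bot_or_eq_top with h | h
  · exfalso
    apply hna
    intro a b
    have h1 : ⁅a, b⁆ ∈ commutator H := Subgroup.commutator_mem_commutator
      (Subgroup.mem_top a) (Subgroup.mem_top b)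
    rw [h, Subgroup.mem_bot, commutatorElement_eq_one_iff_mul_comm] at h1
    exact h1
  · exact h

/-- The center of a nonabelian simple group is trivial. -/
theorem center_bot {H : Type} [Group H] [IsSimpleGroup H] (hna : ¬ ∀ a b : H, a * b = b * a) :
    Subgroup.center H = ⊥ := by
  rcases (inferInstance : (Subgroup.center H).Normal).eq_bot_or_eq_top with h | h
  · exact h
  · exfalso
    apply hna
    intro a b
    have h1 : b ∈ Subgroup.center H := by rw [h]; trivial
    exact Subgroup.mem_center_iff.mp h1 a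

/-- The main structure result. -/
theorem main {G H : Type} [Group G] [Group H] [Finite G] [Finite H] [IsSimpleGroup H]
    (hna : ¬ ∀ a b : H, a * b = b * a)
    (hb : ∀ V : FDRep ℂ G, Simple V → ∃ W : FDRep ℂ H, Simple W ∧ finrank ℂ V ≤ finrank ℂ W)
    (K : Subgroup G) (π : K →* H) (hπ : Function.Surjective π) :
    (∀ h : H, ∃ k : K, (k : G) ∈ K.normalCore ∧ π k = h) ∧
    commutator G ≤ K.normalCore ∧
    ∃ M : Subgroup G, M.Normal ∧ M ≤ K.normalCore ∧
      ∀ k : K, (k : G) ∈ K.normalCore → ((k : G) ∈ M ↔ π k = 1) := by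
  classical
  obtain ⟨V, hV, h2, hmax⟩ := exists_max hna
  have hb' : ∀ X : FDRep ℂ G, Simple X → finrank ℂ X ≤ finrank ℂ V := by
    intro X hX
    obtain ⟨W, hW, hle⟩ := hb X hX
    exact hle.trans (hmax W hW)
  have hnt := Pool.Agent.H13.nontrivial_of_simple V
  obtain ⟨v0, hv0⟩ := exists_ne (0 : V)
  have hσ : Irr V.ρ := ⟨⟨v0, hv0⟩, fun U hU hne => Pool.Agent.H13.eq_top_of_simple V U hU hne⟩
  have hirrK : Irr (V.ρ.comp π) := by
    refine ⟨hσ.1, fun U hU hne => hσ.2 U ?_ hne⟩
    intro h v hv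
    obtain ⟨k, rfl⟩ := hπ h
    exact hU k v hv
  obtain ⟨ρ, hρ⟩ := exists_ext K (V.ρ.comp π) hirrK hb'
  have hρ' : ∀ (k : K) (w : V), ρ (k : G) w = V.ρ (π k) w := hρ
  have hcore := core_map_top K π hπ V.ρ hσ h2 hb' ρ hρ'
  refine ⟨hcore, ?_, ?_⟩
  · have hirrN : Irr (resK ρ K.normalCore) := by
      refine ⟨hσ.1, fun U hU hne => hσ.2 U ?_ hne⟩
      intro h v hv
      obtain ⟨k, hk, rfl⟩ := hcore h
      rw [← hρ']
      exact hU ⟨k, hk⟩ v hv
    have hq := quot_comm K.normalCore ρ hirrN hb'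
    rw [commutator_def, Subgroup.commutator_le]
    intro a _ b _
    rw [← QuotientGroup.eq_one_iff]
    have h1 : ((⁅a, b⁆ : G) : G ⧸ K.normalCore) =
        (a : G ⧸ K.normalCore) * b * (a : G ⧸ K.normalCore)⁻¹ * (b : G ⧸ K.normalCore)⁻¹ := rfl
    rw [h1, hq (a : G ⧸ K.normalCore) b, mul_assoc (b : G ⧸ K.normalCore), mul_inv_cancel,
      mul_one, mul_inv_cancel]
  · have hfaith : ∀ h : H, V.ρ h = 1 → h = 1 := by
      intro h hh
      have hk : (MonoidHom.ker V.ρ).Normal := inferInstance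
      rcases hk.eq_bot_or_eq_top with h1 | h1
      · have : h ∈ MonoidHom.ker V.ρ := MonoidHom.mem_ker.mpr hh
        rw [h1, Subgroup.mem_bot] at this
        exact this
      · exfalso
        apply hv0
        apply fixed_eq_zero V.ρ hσ h2
        intro g
        have : g ∈ MonoidHom.ker V.ρ := by rw [h1]; trivial
        rw [MonoidHom.mem_ker.mp this]
        rfl
    refine ⟨K.normalCore ⊓ MonoidHom.ker ρ, inferInstance, inf_le_left, ?_⟩
    intro k hk
    constructor
    · rintro ⟨_, h1⟩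
      apply hfaith
      apply LinearMap.ext
      intro w
      rw [← hρ' k w, MonoidHom.mem_ker.mp h1]
    · intro h1
      refine ⟨hk, MonoidHom.mem_ker.mpr ?_⟩
      apply LinearMap.ext
      intro w
      rw [hρ' k w, h1, map_one]

end Pool.Agent.H93.Hup
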